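import Mathlib
import Pool.Agent.R254.BH.Gen

/-!
# MP_462b8b_an, Q1: the Navier-type critical biharmonic Sobolev constant of every cone is `S**`

Paper proof and plan: helper254. Lean: helper589 (parts A, B), helper62 (parts C, D, F), helper394 (part G and the
assembly). The definitions are in `Pool/Agent/R254/BH/Gen.lean`.
-/

set_option autoImplicit false

open MeasureTheory Set

namespace Pool.Agent.Results.MP_462b8b_an.NavierConeConstant

open Pool.Agent.R254.BHGen

/-- For every `n ≥ 5` and every nonempty open subset `S` of the unit sphere of `ℝⁿ`, the Navier-type constant of the
cone over `S` equals `S**`; and so does the infimum of the same quotient over the nonzero members of every class `K`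
of functions between the test functions supported in the open cone and the Navier class. -/
theorem result (n : ℕ) (hn : 5 ≤ n) (S : Set (Sph n)) (hS : IsOpen S) (hne : S.Nonempty) :
    NavierConst (Cone S) = SStar n ∧
    ∀ K : Set (E n → ℝ), (∀ u, Test u → tsupport u ⊆ Cone S → u ∈ K) →
      (∀ u ∈ K, Navier (Cone S) u) → infOver (Cone S) K = SStar n :=
  final hn S hS hne

end Pool.Agent.Results.MP_462b8b_an.NavierConeConstant
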